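import Pool.Agent.H12.UT.Targets2

/-!
MP_8b378c_ag, universal torsors, module E3: common denominators.
-/

namespace Pool.Agent.H11.UT

open Polynomial
open Pool.Agent.H12.UT

theorem pf_E3 : T_E3 := by
  intro κ E _ _ _ _ a f h
  obtain ⟨x, y, hxy⟩ := h
  obtain ⟨A₁, D₁, hD₁, hx⟩ := IsFractionRing.div_surjective (A := κ[X]) x
  obtain ⟨B₁, D₂, hD₂, hy⟩ := IsFractionRing.div_surjective (A := κ[X]) y
  have h1 : D₁ ≠ 0 := nonZeroDivisors.ne_zero hD₁
  have h2 : D₂ ≠ 0 := nonZeroDivisors.ne_zero hD₂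
  have hinj : Function.Injective (algebraMap κ[X] E) := IsFractionRing.injective κ[X] E
  have h1' : algebraMap κ[X] E D₁ ≠ 0 := by
    intro h0
    exact h1 (hinj (by rw [h0, map_zero]))
  have h2' : algebraMap κ[X] E D₂ ≠ 0 := by
    intro h0
    exact h2 (hinj (by rw [h0, map_zero]))
  refine ⟨A₁ * D₂, B₁ * D₁, D₁ * D₂, mul_ne_zero h1 h2, hinj ?_⟩
  simp only [map_mul, map_pow, map_sub]
  rw [hxy, ← hx, ← hy]
  field_simp

end Pool.Agent.H11.UT
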